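import Mathlib

/-! # Sumsets of the positions of the nonzero digits: the analytic core -/

namespace Pool.Agent.Q39.SS

open Finset

/-- the scaled remainder `b ^ n (v - ∑_{k ≤ n} u_k / b ^ k)` -/
noncomputable def E (b : ℕ) (u : ℕ → ℕ) (v : ℝ) (n : ℕ) : ℝ :=
  b ^ n * (v - ∑ k ∈ range (n + 1), (u k : ℝ) / b ^ k)

/-- Cauchy product -/
def conv (u v : ℕ → ℕ) (k : ℕ) : ℕ := ∑ p ∈ antidiagonal k, u p.1 * v p.2

/-- powers for the Cauchy product -/
def pw (a : ℕ → ℕ) : ℕ → ℕ → ℕ
  | 0 => fun k => if k = 0 then 1 else 0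
  | i + 1 => conv a (pw a i)

lemma E_succ {b : ℕ} (hb : 2 ≤ b) (u : ℕ → ℕ) (v : ℝ) (n : ℕ) :
    E b u v (n + 1) = b * E b u v n - u (n + 1) := by
  have hb0 : (b : ℝ) ≠ 0 := by positivity
  unfold E
  rw [sum_range_succ _ (n + 1)]
  field_simp
  ring

/-- the product formula for the remainders -/
lemma E_conv {b : ℕ} (hb : 2 ≤ b) (u v : ℕ → ℕ) (U V : ℝ) (n : ℕ) :
    E b (conv u v) (U * V) n =
      E b u U n * V + ∑ i ∈ range (n + 1), (u i : ℝ) * E b v V (n - i) := by
  have hb0 : (b : ℝ) ≠ 0 := by positivity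
  have h1 : ∑ k ∈ range (n + 1), (conv u v k : ℝ) / b ^ k =
      ∑ i ∈ range (n + 1), (u i : ℝ) / b ^ i *
        ∑ j ∈ range (n - i + 1), (v j : ℝ) / b ^ j := by
    have h2 : ∀ k ∈ range (n + 1), (conv u v k : ℝ) / b ^ k =
        ∑ i ∈ range (k + 1), ((u i : ℝ) / b ^ i) * ((v (k - i) : ℝ) / b ^ (k - i)) := by
      intro k _
      rw [conv, Finset.Nat.sum_antidiagonal_eq_sum_range_succ (fun i j => u i * v j)]
      push_cast
      rw [sum_div]
      refine sum_congr rfl fun i hi => ?_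
      have hi' : i ≤ k := by simpa [Nat.lt_succ_iff] using hi
      have : (b : ℝ) ^ k = b ^ i * b ^ (k - i) := by rw [← pow_add]; congr 1; omega
      rw [this]
      field_simp
    rw [sum_congr rfl h2, Finset.sum_range_diag_flip (n + 1)
      (fun i j => ((u i : ℝ) / b ^ i) * ((v j : ℝ) / b ^ j))]
    refine sum_congr rfl fun i hi => ?_
    have hi' : i ≤ n := by simpa [Nat.lt_succ_iff] using hi
    rw [mul_sum]
    refine sum_congr ?_ fun _ _ => rfl
    congr 1
    omega
  have h3 : ∀ i ∈ range (n + 1), (u i : ℝ) * E b v V (n - i) =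
      b ^ n * ((u i : ℝ) / b ^ i * V) -
        b ^ n * ((u i : ℝ) / b ^ i * ∑ j ∈ range (n - i + 1), (v j : ℝ) / b ^ j) := by
    intro i hi
    have hi' : i ≤ n := by simpa [Nat.lt_succ_iff] using hi
    have : (b : ℝ) ^ n = b ^ i * b ^ (n - i) := by rw [← pow_add]; congr 1; omega
    rw [E, this]
    field_simp
  rw [sum_congr rfl h3, sum_sub_distrib, ← mul_sum, ← mul_sum, ← h1, ← sum_mul]
  unfold E
  ring

/-! ## The counting inequality -/

section count

variable {b : ℕ} {r : ℕ → ℕ} {v : ℝ}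

open Classical in
/-- the positions of the nonzero terms in `[1, N]` -/
noncomputable def supp (r : ℕ → ℕ) (N : ℕ) : Finset ℕ := {n ∈ Icc 1 N | r n ≠ 0}

lemma supp_succ_of_eq {N : ℕ} (h : r (N + 1) = 0) : supp r (N + 1) = supp r N := by
  classical
  ext n
  simp only [supp, mem_filter, mem_Icc]
  constructor
  · rintro ⟨⟨h1, h2⟩, h3⟩
    refine ⟨⟨h1, ?_⟩, h3⟩
    rcases Nat.lt_or_ge N n with h4 | h4
    · have : n = N + 1 := by omega
      exact absurd h (this ▸ h3)
    · exact h4
  · rintro ⟨⟨h1, h2⟩, h3⟩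
    exact ⟨⟨h1, by omega⟩, h3⟩

lemma supp_succ_of_ne {N : ℕ} (h : r (N + 1) ≠ 0) :
    supp r (N + 1) = insert (N + 1) (supp r N) := by
  classical
  ext n
  simp only [supp, mem_filter, mem_Icc, mem_insert]
  constructor
  · rintro ⟨⟨h1, h2⟩, h3⟩
    rcases Nat.lt_or_ge N n with h4 | h4
    · left; omega
    · right; exact ⟨⟨h1, h4⟩, h3⟩
  · rintro (h4 | ⟨⟨h1, h2⟩, h3⟩)
    · subst h4; exact ⟨⟨by omega, le_rfl⟩, h⟩
    · exact ⟨⟨h1, by omega⟩, h3⟩

/-- the potential argument -/
lemma potential (hb : 2 ≤ b) (h1 : ∀ n, 1 ≤ E b r v n) (N : ℕ) :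
    (N : ℝ) * Real.log b ≤
      ∑ n ∈ supp r N, Real.log (b * E b r v (n - 1)) + Real.log (E b r v N) := by
  have hb0 : (0 : ℝ) < b := by positivity
  induction N with
  | zero =>
      have : supp r 0 = ∅ := by simp [supp]
      rw [this]
      simpa using Real.log_nonneg (h1 0)
  | succ N ih =>
      by_cases h : r (N + 1) = 0
      · rw [supp_succ_of_eq h, E_succ hb, h]
        have hE : 0 < E b r v N := by linarith [h1 N]
        rw [Nat.cast_zero, sub_zero, Real.log_mul hb0.ne' hE.ne']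
        push_cast
        linarith
      · rw [supp_succ_of_ne h, sum_insert (by simp [supp])]
        have hE : 0 < E b r v N := by linarith [h1 N]
        have h2 := Real.log_nonneg (h1 (N + 1))
        rw [Nat.add_sub_cancel, Real.log_mul hb0.ne' hE.ne']
        push_cast
        linarith

/-- the sum of the remainders -/
lemma sum_E (hb : 2 ≤ b) (N : ℕ) :
    ((b : ℝ) - 1) * ∑ n ∈ range N, E b r v n =
      ∑ n ∈ range N, (r (n + 1) : ℝ) + E b r v N - E b r v 0 := by
  induction N with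
  | zero => simp
  | succ N ih =>
      rw [sum_range_succ, mul_add, ih, sum_range_succ, E_succ hb]
      ring

/-- Jensen's inequality for the logarithm, by tangent lines -/
lemma sum_log_le {ι : Type*} (F : Finset ι) (y : ι → ℝ) (z : ℝ) (hy : ∀ i ∈ F, 0 < y i)
    (hz : 0 < z) {Y : ℝ} (hY : ∑ i ∈ F, y i + z ≤ Y) :
    ∑ i ∈ F, Real.log (y i) + Real.log z ≤
      ((F.card : ℝ) + 1) * Real.log (Y / (F.card + 1)) := by
  have hs : 0 ≤ ∑ i ∈ F, y i := sum_nonneg fun i hi => (hy i hi).le
  have hYp : 0 < Y := by linarith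
  have hT : (0 : ℝ) < F.card + 1 := by positivity
  set s : ℝ := Y / (F.card + 1) with hsdef
  have hsp : 0 < s := div_pos hYp hT
  have key : ∀ t : ℝ, 0 < t → Real.log t ≤ t / s - 1 + Real.log s := by
    intro t ht
    have := Real.log_le_sub_one_of_pos (div_pos ht hsp)
    rw [Real.log_div ht.ne' hsp.ne'] at this
    linarith
  have h1 : ∑ i ∈ F, Real.log (y i) ≤ ∑ i ∈ F, (y i / s - 1 + Real.log s) :=
    sum_le_sum fun i hi => key _ (hy i hi)
  have h2 := key z hz
  have h3 : ∑ i ∈ F, (y i / s - 1 + Real.log s) =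
      (∑ i ∈ F, y i) / s - F.card + F.card * Real.log s := by
    rw [sum_add_distrib, sum_sub_distrib, sum_const, sum_const, ← sum_div]
    simp
  have h4 : (∑ i ∈ F, y i) / s + z / s ≤ F.card + 1 := by
    rw [← add_div, div_le_iff₀ hsp]
    calc ∑ i ∈ F, y i + z ≤ Y := hY
      _ = (F.card + 1) * s := by rw [hsdef]; field_simp
  linarith

/-- **The counting inequality.** -/
lemma counting (hb : 2 ≤ b) (h1 : ∀ n, 1 ≤ E b r v n) (N : ℕ) {Y : ℝ}
    (hY : 2 * ∑ n ∈ range N, (r (n + 1) : ℝ) + 3 * E b r v N ≤ Y) :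
    (N : ℝ) * Real.log b ≤
      (((supp r N).card : ℝ) + 1) * Real.log (Y / ((supp r N).card + 1)) := by
  have hb0 : (0 : ℝ) < b := by positivity
  have hb2 : (2 : ℝ) ≤ b := by exact_mod_cast hb
  refine (potential hb h1 N).trans (sum_log_le _ _ _ ?_ ?_ ?_)
  · intro i _
    exact mul_pos hb0 (by linarith [h1 (i - 1)])
  · linarith [h1 N]
  · have h2 := sum_E (r := r) (v := v) hb N
    have h3 : ∑ n ∈ supp r N, (b : ℝ) * E b r v (n - 1) ≤
        b * ∑ n ∈ range N, E b r v n := by
      rw [mul_sum]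
      have : ∑ n ∈ supp r N, (b : ℝ) * E b r v (n - 1) ≤
          ∑ n ∈ Icc 1 N, (b : ℝ) * E b r v (n - 1) := by
        classical
        refine sum_le_sum_of_subset_of_nonneg (filter_subset _ _) fun n _ _ => ?_
        exact mul_nonneg hb0.le (by linarith [h1 (n - 1)])
      refine this.trans (le_of_eq ?_)
      have h5 : Icc 1 N = (range N).map (addRightEmbedding 1) := by
        ext n
        simp only [mem_Icc, mem_map, mem_range, addRightEmbedding_apply]
        constructor
        · rintro ⟨h6, h7⟩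
          exact ⟨n - 1, by omega, by omega⟩
        · rintro ⟨a, h6, h7⟩
          omega
      rw [h5, sum_map]
      simp
    have h4 : 0 ≤ ∑ n ∈ range N, (r (n + 1) : ℝ) := sum_nonneg fun _ _ => by positivity
    have h5 : ∑ n ∈ range N, E b r v n =
        (∑ n ∈ range N, (r (n + 1) : ℝ) + E b r v N - E b r v 0) / (b - 1) := by
      rw [eq_div_iff (by linarith), ← h2]; ring
    have h6 : (b : ℝ) * ∑ n ∈ range N, E b r v n ≤
        2 * (∑ n ∈ range N, (r (n + 1) : ℝ) + E b r v N) := by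
      have h7 : 0 ≤ ∑ n ∈ range N, (r (n + 1) : ℝ) + E b r v N - E b r v 0 := by
        rw [← h2]
        refine mul_nonneg (by linarith) (sum_nonneg fun n _ => by linarith [h1 n])
      rw [h5, mul_div_assoc', div_le_iff₀ (by linarith)]
      nlinarith [h1 0, h1 N]
    linarith

end count

/-! ## Growth of the powers -/

section growth

variable {b : ℕ} {a : ℕ → ℕ} {x : ℝ} {M : ℕ}

open Classical in
/-- the number of nonzero digits at the positions `0, …, N` -/
noncomputable def cnt (a : ℕ → ℕ) (N : ℕ) : ℕ := #{n ∈ range (N + 1) | a n ≠ 0}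

lemma cnt_mono : Monotone (cnt a) := by
  classical
  intro m n h
  exact card_le_card (filter_subset_filter _ (range_mono (by omega)))

lemma sum_le_cnt (hM : ∀ k, a k ≤ M) (N : ℕ) : ∑ k ∈ range (N + 1), a k ≤ M * cnt a N := by
  classical
  rw [cnt, ← sum_filter_ne_zero, mul_comm, ← smul_eq_mul]
  exact sum_le_card_nsmul _ _ _ fun k _ => hM k

lemma sum_pw_le (hM : ∀ k, a k ≤ M) (i N : ℕ) :
    ∑ k ∈ range (N + 1), pw a i k ≤ (M * cnt a N) ^ i := by
  induction i with
  | zero => simp [pw]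
  | succ i ih =>
      have h1 : ∑ k ∈ range (N + 1), pw a (i + 1) k =
          ∑ j ∈ range (N + 1), ∑ l ∈ range (N + 1 - j), a j * pw a i l := by
        rw [← Finset.sum_range_diag_flip (N + 1) (fun j l => a j * pw a i l)]
        refine sum_congr rfl fun k _ => ?_
        rw [pw, conv, Finset.Nat.sum_antidiagonal_eq_sum_range_succ (fun j l => a j * pw a i l)]
      rw [h1, pow_succ, mul_comm ((M * cnt a N) ^ i)]
      calc ∑ j ∈ range (N + 1), ∑ l ∈ range (N + 1 - j), a j * pw a i l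
          ≤ ∑ j ∈ range (N + 1), a j * (M * cnt a N) ^ i := by
            refine sum_le_sum fun j _ => ?_
            rw [← mul_sum]
            refine Nat.mul_le_mul_left _ (le_trans ?_ ih)
            exact sum_le_sum_of_subset (range_mono (by omega))
        _ = (∑ j ∈ range (N + 1), a j) * (M * cnt a N) ^ i := by rw [sum_mul]
        _ ≤ _ := Nat.mul_le_mul_right _ (sum_le_cnt hM N)

lemma E_pw_le (hb : 2 ≤ b) (hM : ∀ k, a k ≤ M) (hx : 0 ≤ x) (hE : ∀ n, 0 ≤ E b a x n)
    (hE1 : ∀ n, E b a x n ≤ 1) (i : ℕ) :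
    ∃ B : ℝ, 0 ≤ B ∧ ∀ N, E b (pw a i) (x ^ i) N ≤ B * ((cnt a N : ℝ) + 1) ^ i := by
  induction i with
  | zero =>
      refine ⟨0, le_rfl, fun N => ?_⟩
      simp [E, pw, sum_range_succ']
  | succ i ih =>
      obtain ⟨B, hB, h⟩ := ih
      refine ⟨x ^ i + M * B, by positivity, fun N => ?_⟩
      have hc : (1 : ℝ) ≤ (cnt a N : ℝ) + 1 := by
        have : (0 : ℝ) ≤ cnt a N := by positivity
        linarith
      have h1 := E_conv hb a (pw a i) x (x ^ i) N
      rw [show x * x ^ i = x ^ (i + 1) by ring] at h1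
      change E b (conv a (pw a i)) (x ^ (i + 1)) N ≤ _
      rw [h1]
      have h2 : E b a x N * x ^ i ≤ x ^ i * ((cnt a N : ℝ) + 1) ^ (i + 1) := by
        have h3 : (1 : ℝ) ≤ ((cnt a N : ℝ) + 1) ^ (i + 1) := one_le_pow₀ hc
        have h4 : 0 ≤ x ^ i := by positivity
        calc E b a x N * x ^ i ≤ 1 * x ^ i := mul_le_mul_of_nonneg_right (hE1 N) h4
          _ ≤ ((cnt a N : ℝ) + 1) ^ (i + 1) * x ^ i := mul_le_mul_of_nonneg_right h3 h4
          _ = _ := by ring
      have h5 : ∑ j ∈ range (N + 1), (a j : ℝ) * E b (pw a i) (x ^ i) (N - j) ≤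
          M * B * ((cnt a N : ℝ) + 1) ^ (i + 1) := by
        calc ∑ j ∈ range (N + 1), (a j : ℝ) * E b (pw a i) (x ^ i) (N - j)
            ≤ ∑ j ∈ range (N + 1), (a j : ℝ) * (B * ((cnt a N : ℝ) + 1) ^ i) := by
              refine sum_le_sum fun j _ => mul_le_mul_of_nonneg_left ((h _).trans ?_) (by positivity)
              refine mul_le_mul_of_nonneg_left ?_ hB
              refine pow_le_pow_left₀ (by positivity) ?_ _
              have : (cnt a (N - j) : ℝ) ≤ cnt a N := by exact_mod_cast cnt_mono (by omega)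
              linarith
          _ = ((∑ j ∈ range (N + 1), a j : ℕ) : ℝ) * (B * ((cnt a N : ℝ) + 1) ^ i) := by
              push_cast; rw [sum_mul]
          _ ≤ ((M * cnt a N : ℕ) : ℝ) * (B * ((cnt a N : ℝ) + 1) ^ i) := by
              refine mul_le_mul_of_nonneg_right ?_ (by positivity)
              exact_mod_cast sum_le_cnt hM N
          _ ≤ (M * ((cnt a N : ℝ) + 1)) * (B * ((cnt a N : ℝ) + 1) ^ i) := by
              refine mul_le_mul_of_nonneg_right ?_ (by positivity)
              push_cast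
              refine mul_le_mul_of_nonneg_left (by linarith) (by positivity)
          _ = _ := by ring
      calc _ ≤ x ^ i * ((cnt a N : ℝ) + 1) ^ (i + 1) + M * B * ((cnt a N : ℝ) + 1) ^ (i + 1) :=
            add_le_add h2 h5
        _ = _ := by ring

end growth

end Pool.Agent.Q39.SS
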