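import Pool.Agent.Q39.SS.Core

/-! # Sumsets of the positions of the nonzero digits: the main theorem -/

namespace Pool.Agent.Q39.SS

open Finset

/-- the `k`-th digit of `x` in base `b`; the integer part is the digit number `0` -/
noncomputable def digit (b : ℕ) (x : ℝ) (k : ℕ) : ℕ :=
  if k = 0 then ⌊x⌋₊ else ⌊x * b ^ k⌋₊ % b

/-- the positions of the nonzero digits -/
def pos (b : ℕ) (x : ℝ) : Set ℕ := {k | digit b x k ≠ 0}

/-- the `i`-fold sumset of `A` -/
def sums (i : ℕ) (A : Set ℕ) : Set ℕ :=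
  {n | ∃ t : Fin i → ℕ, (∀ j, t j ∈ A) ∧ ∑ j, t j = n}

lemma sum_digit {b : ℕ} (hb : 2 ≤ b) (x : ℝ) (n : ℕ) :
    ∑ k ∈ range (n + 1), (digit b x k : ℝ) / b ^ k = ⌊x * b ^ n⌋₊ / b ^ n := by
  have hb0 : (b : ℝ) ≠ 0 := by positivity
  induction n with
  | zero => simp [digit]
  | succ n ih =>
      rw [sum_range_succ, ih]
      have h1 : ⌊x * b ^ n⌋₊ = ⌊x * b ^ (n + 1)⌋₊ / b := by
        rw [← Nat.floor_div_natCast]
        congr 1
        field_simp
        ring
      have h2 : digit b x (n + 1) = ⌊x * b ^ (n + 1)⌋₊ % b := by simp [digit]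
      have h3 := Nat.div_add_mod ⌊x * b ^ (n + 1)⌋₊ b
      rw [h1, h2]
      have h4 : ((⌊x * b ^ (n + 1)⌋₊ : ℕ) : ℝ) =
          b * ((⌊x * b ^ (n + 1)⌋₊ / b : ℕ) : ℝ) + ((⌊x * b ^ (n + 1)⌋₊ % b : ℕ) : ℝ) := by
        exact_mod_cast h3.symm
      rw [h4]
      field_simp
      ring

lemma E_digit {b : ℕ} (hb : 2 ≤ b) (x : ℝ) (n : ℕ) :
    E b (digit b x) x n = x * b ^ n - ⌊x * b ^ n⌋₊ := by
  have hb0 : (b : ℝ) ≠ 0 := by positivity
  rw [E, sum_digit hb]
  field_simp

lemma E_digit_pos {b : ℕ} (hb : 2 ≤ b) {x : ℝ} (hx : 0 < x) (hi : Irrational x) (n : ℕ) :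
    0 < E b (digit b x) x n := by
  rw [E_digit hb]
  have h1 : (⌊x * b ^ n⌋₊ : ℝ) ≤ x * b ^ n := Nat.floor_le (by positivity)
  refine lt_of_le_of_ne (by linarith) fun h => ?_
  have hi' : Irrational (x * ((b ^ n : ℕ) : ℝ)) := hi.mul_natCast (by positivity)
  refine hi'.ne_nat ⌊x * b ^ n⌋₊ ?_
  push_cast
  linarith

lemma E_digit_le {b : ℕ} (hb : 2 ≤ b) {x : ℝ} (n : ℕ) :
    E b (digit b x) x n ≤ 1 := by
  rw [E_digit hb]
  have := Nat.lt_floor_add_one (x * b ^ n)
  linarith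

lemma digit_le {b : ℕ} (hb : 2 ≤ b) (x : ℝ) (k : ℕ) : digit b x k ≤ ⌊x⌋₊ + b := by
  unfold digit
  split_ifs
  · omega
  · have := Nat.mod_lt ⌊x * b ^ k⌋₊ (show 0 < b by omega)
    omega

lemma E_pw_nonneg {b : ℕ} (hb : 2 ≤ b) {a : ℕ → ℕ} {x : ℝ} (hx : 0 < x)
    (hE : ∀ n, 0 < E b a x n) (i : ℕ) : ∀ n, 0 ≤ E b (pw a i) (x ^ i) n := by
  induction i with
  | zero => intro n; simp [E, pw, sum_range_succ']
  | succ i ih =>
      intro n
      have h1 := E_conv hb a (pw a i) x (x ^ i) n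
      rw [show x * x ^ i = x ^ (i + 1) by ring] at h1
      change 0 ≤ E b (conv a (pw a i)) (x ^ (i + 1)) n
      rw [h1]
      have : 0 ≤ ∑ j ∈ range (n + 1), (a j : ℝ) * E b (pw a i) (x ^ i) (n - j) :=
        sum_nonneg fun j _ => mul_nonneg (by positivity) (ih _)
      have := hE n
      positivity

lemma E_pw_pos {b : ℕ} (hb : 2 ≤ b) {a : ℕ → ℕ} {x : ℝ} (hx : 0 < x)
    (hE : ∀ n, 0 < E b a x n) {i : ℕ} (hi : i ≠ 0) (n : ℕ) : 0 < E b (pw a i) (x ^ i) n := by
  obtain ⟨i, rfl⟩ := Nat.exists_eq_succ_of_ne_zero hi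
  have h1 := E_conv hb a (pw a i) x (x ^ i) n
  rw [show x * x ^ i = x ^ (i + 1) by ring] at h1
  change 0 < E b (conv a (pw a i)) (x ^ (i + 1)) n
  rw [h1]
  have : 0 ≤ ∑ j ∈ range (n + 1), (a j : ℝ) * E b (pw a i) (x ^ i) (n - j) :=
    sum_nonneg fun j _ => mul_nonneg (by positivity) (E_pw_nonneg hb hx hE i _)
  have := hE n
  positivity

/-- the coefficients of the polynomial expression -/
def rr (a : ℕ → ℕ) (m : ℕ → ℕ) (h : ℕ) (k : ℕ) : ℕ := ∑ i ∈ range (h + 1), m i * pw a i k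

lemma E_rr (b : ℕ) (a m : ℕ → ℕ) (h : ℕ) (x : ℝ) (n : ℕ) :
    E b (rr a m h) (∑ i ∈ range (h + 1), (m i : ℝ) * x ^ i) n =
      ∑ i ∈ range (h + 1), (m i : ℝ) * E b (pw a i) (x ^ i) n := by
  have h1 : ∑ k ∈ range (n + 1), (rr a m h k : ℝ) / b ^ k =
      ∑ i ∈ range (h + 1), (m i : ℝ) * ∑ k ∈ range (n + 1), (pw a i k : ℝ) / b ^ k := by
    simp_rw [rr]
    push_cast
    simp_rw [sum_div, mul_sum]
    rw [sum_comm]
    refine sum_congr rfl fun i _ => sum_congr rfl fun k _ => by ring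
  unfold E
  rw [h1, mul_sub, mul_sum, mul_sum, ← sum_sub_distrib]
  refine sum_congr rfl fun i _ => by ring

lemma E_int {b : ℕ} (hb : 2 ≤ b) (r : ℕ → ℕ) (D n : ℕ) :
    ∃ z : ℤ, E b r (D : ℝ) n = z := by
  have hb0 : (b : ℝ) ≠ 0 := by positivity
  refine ⟨(b : ℤ) ^ n * D - ∑ k ∈ range (n + 1), (r k : ℤ) * b ^ (n - k), ?_⟩
  unfold E
  push_cast
  rw [mul_sub, mul_sum]
  congr 1
  refine sum_congr rfl fun k hk => ?_
  have hk' : k ≤ n := by simpa [Nat.lt_succ_iff] using hk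
  have : (b : ℝ) ^ n = b ^ k * b ^ (n - k) := by rw [← pow_add]; congr 1; omega
  rw [this]
  field_simp

lemma mem_sums_of_pw {a : ℕ → ℕ} (i : ℕ) : ∀ k, pw a i k ≠ 0 → k ∈ sums i {n | a n ≠ 0} := by
  induction i with
  | zero =>
      intro k hk
      have : k = 0 := by
        by_contra h
        exact hk (by simp [pw, h])
      exact ⟨Fin.elim0, fun j => j.elim0, by simp [this]⟩
  | succ i ih =>
      intro k hk
      have hk' : ∑ p ∈ antidiagonal k, a p.1 * pw a i p.2 ≠ 0 := hk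
      obtain ⟨p, hp, hp'⟩ := exists_ne_zero_of_sum_ne_zero hk'
      have h1 : a p.1 ≠ 0 := left_ne_zero_of_mul hp'
      have h2 : pw a i p.2 ≠ 0 := right_ne_zero_of_mul hp'
      obtain ⟨t, ht, hs⟩ := ih _ h2
      refine ⟨Fin.cons p.1 t, fun j => ?_, ?_⟩
      · refine Fin.cases ?_ (fun j => ?_) j
        · simpa using h1
        · simpa using ht j
      · rw [Fin.sum_univ_succ]
        simp only [Fin.cons_zero, Fin.cons_succ]
        rw [hs]
        exact mem_antidiagonal.1 hp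

/-- **The main inequality.** -/
theorem main {b : ℕ} (hb : 2 ≤ b) {x : ℝ} (hx : 0 < x) (hi : Irrational x) (h : ℕ) (m : ℕ → ℕ)
    (D : ℕ) (heq : ∑ i ∈ range (h + 1), (m i : ℝ) * x ^ i = D)
    (hm : ∃ i ∈ range (h + 1), i ≠ 0 ∧ m i ≠ 0) {ε : ℝ} (hε : 0 < ε) (hε1 : ε < 1) :
    ∃ C : ℝ, ∀ N : ℕ, 1 ≤ N → ∀ S : Finset ℕ,
      (∀ n, 1 ≤ n → n ≤ N → (∃ i ≤ h, m i ≠ 0 ∧ n ∈ sums i (pos b x)) → n ∈ S) →
      1 ≤ cnt (digit b x) N →
      0 < h * Real.logb b (cnt (digit b x) N) - Real.logb b N + C ∧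
      (1 - ε) * N ≤ ((#S : ℝ) + 1) *
        (h * Real.logb b (cnt (digit b x) N) - Real.logb b N + C) := by
  classical
  set a := digit b x with ha
  have hb0 : (0 : ℝ) < b := by positivity
  have hb2 : (2 : ℝ) ≤ b := by exact_mod_cast hb
  have hlb : 0 < Real.log b := Real.log_pos (by linarith)
  set M : ℕ := ⌊x⌋₊ + b
  have hM : ∀ k, a k ≤ M := digit_le hb x
  have hEp : ∀ n, 0 < E b a x n := E_digit_pos hb hx hi
  have hE1 : ∀ n, E b a x n ≤ 1 := fun n => E_digit_le hb n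
  choose B hB0 hB using fun i => E_pw_le hb hM hx.le (fun n => (hEp n).le) hE1 i
  set r := rr a m h with hr
  have hone : ∀ n, 1 ≤ E b r (D : ℝ) n := by
    intro n
    obtain ⟨z, hz⟩ := E_int hb r D n
    have hpos : 0 < E b r (D : ℝ) n := by
      rw [← heq, hr, E_rr]
      obtain ⟨i, hi1, hi2, hi3⟩ := hm
      refine sum_pos' (fun j _ => mul_nonneg (by positivity) (E_pw_nonneg hb hx hEp j n))
        ⟨i, hi1, ?_⟩
      have := E_pw_pos hb hx hEp hi2 n
      have : (0 : ℝ) < m i := by exact_mod_cast Nat.pos_of_ne_zero hi3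
      positivity
    rw [hz] at hpos ⊢
    have : (0 : ℤ) < z := by exact_mod_cast hpos
    exact_mod_cast this
  set C₁ : ℝ := 2 * ∑ i ∈ range (h + 1), (m i : ℝ) * (M : ℝ) ^ i +
    3 * ∑ i ∈ range (h + 1), (m i : ℝ) * B i + 1 with hC₁
  have hC₁p : 1 ≤ C₁ := by
    have h1 : 0 ≤ ∑ i ∈ range (h + 1), (m i : ℝ) * (M : ℝ) ^ i :=
      sum_nonneg fun _ _ => by positivity
    have h2 : 0 ≤ ∑ i ∈ range (h + 1), (m i : ℝ) * B i :=
      sum_nonneg fun i _ => mul_nonneg (by positivity) (hB0 i)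
    linarith
  set ε' : ℝ := ε * Real.log b with hε'
  have hε'p : 0 < ε' := mul_pos hε hlb
  set C : ℝ := (Real.log C₁ + h * Real.log 2 - 1 - Real.log ε') / Real.log b with hC
  refine ⟨C, fun N hN S hS hc => ?_⟩
  set α : ℝ := (cnt a N : ℝ) + 1 with hα
  have hc' : (1 : ℝ) ≤ cnt a N := by exact_mod_cast hc
  have hα1 : 1 ≤ α := by linarith
  -- the bound for `Y`
  have hY : 2 * ∑ n ∈ range N, (r (n + 1) : ℝ) + 3 * E b r (D : ℝ) N ≤ C₁ * α ^ h := by
    have hpw : ∀ i ∈ range (h + 1), α ^ i ≤ α ^ h := fun i hi' =>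
      pow_le_pow_right₀ hα1 (by simpa [Nat.lt_succ_iff] using hi')
    have h1 : ∑ n ∈ range N, (r (n + 1) : ℝ) ≤
        (∑ i ∈ range (h + 1), (m i : ℝ) * (M : ℝ) ^ i) * α ^ h := by
      calc ∑ n ∈ range N, (r (n + 1) : ℝ) ≤ ∑ n ∈ range (N + 1), (r n : ℝ) := by
            rw [sum_range_succ']
            have : (0 : ℝ) ≤ r 0 := by positivity
            linarith
        _ = ∑ i ∈ range (h + 1), (m i : ℝ) * ((∑ n ∈ range (N + 1), pw a i n : ℕ) : ℝ) := by
            rw [hr]; simp_rw [rr]; push_cast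
            rw [sum_comm]
            simp_rw [mul_sum]
        _ ≤ ∑ i ∈ range (h + 1), (m i : ℝ) * (M : ℝ) ^ i * α ^ h := by
            refine sum_le_sum fun i hi' => ?_
            rw [mul_assoc]
            refine mul_le_mul_of_nonneg_left ?_ (by positivity)
            calc ((∑ n ∈ range (N + 1), pw a i n : ℕ) : ℝ) ≤ (((M * cnt a N) ^ i : ℕ) : ℝ) := by
                  exact_mod_cast sum_pw_le hM i N
              _ = (M : ℝ) ^ i * (cnt a N : ℝ) ^ i := by push_cast; ring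
              _ ≤ (M : ℝ) ^ i * α ^ i := by
                  refine mul_le_mul_of_nonneg_left ?_ (by positivity)
                  exact pow_le_pow_left₀ (by positivity) (by linarith) _
              _ ≤ (M : ℝ) ^ i * α ^ h :=
                  mul_le_mul_of_nonneg_left (hpw i hi') (by positivity)
        _ = _ := by rw [sum_mul]
    have h2 : E b r (D : ℝ) N ≤ (∑ i ∈ range (h + 1), (m i : ℝ) * B i) * α ^ h := by
      rw [← heq, hr, E_rr, sum_mul]
      refine sum_le_sum fun i hi' => ?_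
      rw [mul_assoc]
      refine mul_le_mul_of_nonneg_left ((hB i N).trans ?_) (by positivity)
      exact mul_le_mul_of_nonneg_left (hpw i hi') (hB0 i)
    have h3 : 0 ≤ α ^ h := by positivity
    rw [hC₁]
    nlinarith
  have hcount := counting hb hone N hY
  set T : ℝ := ((supp r N).card : ℝ) + 1 with hT
  have hT1 : 1 ≤ T := by
    have : (0 : ℝ) ≤ (supp r N).card := by positivity
    linarith
  have hNp : (0 : ℝ) < N := by exact_mod_cast hN
  have hYp : 0 < C₁ * α ^ h := by positivity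
  have hlog : T * Real.log (C₁ * α ^ h / T) ≤
      T * (Real.log C₁ + h * Real.log 2 + h * Real.log (cnt a N) - Real.log N - 1 - Real.log ε')
        + ε' * N := by
    have h1 : Real.log (C₁ * α ^ h / T) =
        Real.log C₁ + h * Real.log α - Real.log N + Real.log (N / T) := by
      rw [Real.log_div hYp.ne' (by positivity), Real.log_mul (by positivity) (by positivity),
        Real.log_pow, Real.log_div hNp.ne' (by positivity)]
      ring
    have h2 : Real.log (N / T) ≤ ε' * (N / T) - 1 - Real.log ε' := by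
      have h3 := Real.log_le_sub_one_of_pos (x := ε' * (N / T)) (by positivity)
      rw [Real.log_mul hε'p.ne' (by positivity)] at h3
      linarith
    have h4 : Real.log α ≤ Real.log 2 + Real.log (cnt a N) := by
      rw [← Real.log_mul (by norm_num) (by positivity)]
      exact Real.log_le_log (by positivity) (by linarith)
    have h5 : (h : ℝ) * Real.log α ≤ h * Real.log 2 + h * Real.log (cnt a N) := by
      have : (0 : ℝ) ≤ h := by positivity
      nlinarith
    have h6 : T * (ε' * (N / T)) = ε' * N := by field_simp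
    calc T * Real.log (C₁ * α ^ h / T)
        ≤ T * (Real.log C₁ + (h * Real.log 2 + h * Real.log (cnt a N)) - Real.log N
            + (ε' * (N / T) - 1 - Real.log ε')) := by
          refine mul_le_mul_of_nonneg_left ?_ (by linarith)
          rw [h1]; linarith
      _ = _ := by rw [← h6]; ring
  have hfin : (1 - ε) * N ≤ T * (h * Real.logb b (cnt a N) - Real.logb b N + C) := by
    have h1 : (1 - ε) * N * Real.log b ≤
        T * (Real.log C₁ + h * Real.log 2 + h * Real.log (cnt a N) - Real.log N - 1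
          - Real.log ε') := by
      have : ε' * N = ε * N * Real.log b := by rw [hε']; ring
      nlinarith
    have h2 : T * (h * Real.logb b (cnt a N) - Real.logb b N + C) =
        T * (Real.log C₁ + h * Real.log 2 + h * Real.log (cnt a N) - Real.log N - 1
          - Real.log ε') / Real.log b := by
      rw [hC, Real.logb, Real.logb]
      field_simp
      ring
    rw [h2, le_div_iff₀ hlb]
    exact h1
  have hW : 0 < h * Real.logb b (cnt a N) - Real.logb b N + C := by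
    by_contra hneg
    push Not at hneg
    have h1 : T * (h * Real.logb b (cnt a N) - Real.logb b N + C) ≤ 0 :=
      mul_nonpos_of_nonneg_of_nonpos (by linarith) hneg
    have h2 : 0 < (1 - ε) * N := mul_pos (by linarith) hNp
    linarith
  refine ⟨hW, hfin.trans (mul_le_mul_of_nonneg_right ?_ hW.le)⟩
  have : (supp r N).card ≤ #S := by
    refine card_le_card fun n hn => ?_
    rw [supp, mem_filter, mem_Icc] at hn
    obtain ⟨⟨h1, h2⟩, h3⟩ := hn
    refine hS n h1 h2 ?_
    have h4 : ∑ i ∈ range (h + 1), m i * pw a i n ≠ 0 := h3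
    obtain ⟨i, hi1, hi2⟩ := exists_ne_zero_of_sum_ne_zero h4
    exact ⟨i, by simpa [Nat.lt_succ_iff] using hi1, left_ne_zero_of_mul hi2,
      mem_sums_of_pw i n (right_ne_zero_of_mul hi2)⟩
  have : ((supp r N).card : ℝ) ≤ #S := by exact_mod_cast this
  linarith

end Pool.Agent.Q39.SS
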