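import Pool.Agent.Q39.SS.Main

/-! # Sumsets of the positions of nonzero digits: several numbers with a polynomial identity -/

namespace Pool.Agent.Q39.SS

open Finset

/-- the final step: from the counting inequality to the density of the support -/
lemma finish {b : ℕ} (hb : 2 ≤ b) {r : ℕ → ℕ} {v : ℝ} (h1 : ∀ n, 1 ≤ E b r v n) {q : ℕ → ℝ}
    (hq : ∀ N, 1 ≤ q N) {C₀ : ℝ} (hC₀ : 0 ≤ C₀)
    (hs : ∀ N, ∑ n ∈ range (N + 1), (r n : ℝ) ≤ C₀ * q N) (hE : ∀ N, E b r v N ≤ C₀ * q N)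
    {ε : ℝ} (hε : 0 < ε) (hε1 : ε < 1) :
    ∃ C : ℝ, ∀ N : ℕ, 1 ≤ N → ∀ S : Finset ℕ, supp r N ⊆ S →
      0 < Real.logb b (q N / N) + C ∧
      (1 - ε) * N ≤ ((#S : ℝ) + 1) * (Real.logb b (q N / N) + C) := by
  have hb0 : (0 : ℝ) < b := by positivity
  have hb2 : (2 : ℝ) ≤ b := by exact_mod_cast hb
  have hlb : 0 < Real.log b := Real.log_pos (by linarith)
  set C₁ : ℝ := 5 * C₀ + 1 with hC₁
  have hC₁p : 0 < C₁ := by positivity
  set ε' : ℝ := ε * Real.log b with hε'
  have hε'p : 0 < ε' := mul_pos hε hlb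
  set C : ℝ := (Real.log C₁ - 1 - Real.log ε') / Real.log b with hC
  refine ⟨C, fun N hN S hS => ?_⟩
  have hqN := hq N
  have hqp : 0 < q N := by linarith
  have hY : 2 * ∑ n ∈ range N, (r (n + 1) : ℝ) + 3 * E b r v N ≤ C₁ * q N := by
    have h2 : ∑ n ∈ range N, (r (n + 1) : ℝ) ≤ ∑ n ∈ range (N + 1), (r n : ℝ) := by
      rw [sum_range_succ']
      have : (0 : ℝ) ≤ r 0 := by positivity
      linarith
    have h3 := hs N
    have h4 := hE N
    rw [hC₁]
    nlinarith
  have hcount := counting hb h1 N hY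
  set T : ℝ := ((supp r N).card : ℝ) + 1 with hT
  have hT1 : 1 ≤ T := by
    have : (0 : ℝ) ≤ (supp r N).card := by positivity
    linarith
  have hNp : (0 : ℝ) < N := by exact_mod_cast hN
  have hlog : T * Real.log (C₁ * q N / T) ≤
      T * (Real.log C₁ + Real.log (q N / N) - 1 - Real.log ε') + ε' * N := by
    have h1 : Real.log (C₁ * q N / T) = Real.log C₁ + Real.log (q N / N) + Real.log (N / T) := by
      rw [Real.log_div (by positivity) (by positivity), Real.log_mul (by positivity) hqp.ne',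
        Real.log_div hNp.ne' (by positivity), Real.log_div hqp.ne' hNp.ne']
      ring
    have h2 : Real.log (N / T) ≤ ε' * (N / T) - 1 - Real.log ε' := by
      have h3 := Real.log_le_sub_one_of_pos (x := ε' * (N / T)) (by positivity)
      rw [Real.log_mul hε'p.ne' (by positivity)] at h3
      linarith
    have h6 : T * (ε' * (N / T)) = ε' * N := by field_simp
    calc T * Real.log (C₁ * q N / T)
        ≤ T * (Real.log C₁ + Real.log (q N / N) + (ε' * (N / T) - 1 - Real.log ε')) := by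
          refine mul_le_mul_of_nonneg_left ?_ (by linarith)
          rw [h1]; linarith
      _ = _ := by rw [← h6]; ring
  have hfin : (1 - ε) * N ≤ T * (Real.logb b (q N / N) + C) := by
    have h1 : (1 - ε) * N * Real.log b ≤
        T * (Real.log C₁ + Real.log (q N / N) - 1 - Real.log ε') := by
      have : ε' * N = ε * N * Real.log b := by rw [hε']; ring
      nlinarith
    have h2 : T * (Real.logb b (q N / N) + C) =
        T * (Real.log C₁ + Real.log (q N / N) - 1 - Real.log ε') / Real.log b := by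
      rw [hC, Real.logb]
      field_simp
      ring
    rw [h2, le_div_iff₀ hlb]
    exact h1
  have hW : 0 < Real.logb b (q N / N) + C := by
    by_contra hneg
    push Not at hneg
    have h1 : T * (Real.logb b (q N / N) + C) ≤ 0 :=
      mul_nonpos_of_nonneg_of_nonpos (by linarith) hneg
    have h2 : 0 < (1 - ε) * N := mul_pos (by linarith) hNp
    linarith
  refine ⟨hW, hfin.trans (mul_le_mul_of_nonneg_right ?_ hW.le)⟩
  have : ((supp r N).card : ℝ) ≤ #S := by exact_mod_cast card_le_card hS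
  linarith

/-- the coefficients of a power series -/
noncomputable def c (F : PowerSeries ℕ) (k : ℕ) : ℕ := PowerSeries.coeff k F

lemma c_mul (F G : PowerSeries ℕ) : c (F * G) = conv (c F) (c G) := by
  funext k
  simp [c, conv, PowerSeries.coeff_mul]

lemma E_mul {b : ℕ} (hb : 2 ≤ b) (F G : PowerSeries ℕ) (U V : ℝ) (n : ℕ) :
    E b (c (F * G)) (U * V) n =
      E b (c F) U n * V + ∑ i ∈ range (n + 1), (c F i : ℝ) * E b (c G) V (n - i) := by
  rw [c_mul]; exact E_conv hb _ _ _ _ _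

/-- power series with a value and bounds for the remainders -/
structure Good (b : ℕ) (F : PowerSeries ℕ) (v : ℝ) (q : ℕ → ℝ) : Prop where
  v_nonneg : 0 ≤ v
  E_nonneg : ∀ n, 0 ≤ E b (c F) v n
  mono : Monotone q
  one_le : ∀ n, 1 ≤ q n
  bound : ∃ C : ℝ, 0 ≤ C ∧ ∀ N, ∑ k ∈ range (N + 1), (c F k : ℝ) ≤ C * q N ∧
    E b (c F) v N ≤ C * q N

lemma Good.one (b : ℕ) : Good b 1 1 (fun _ => 1) := by
  have h1 : ∀ n, E b (c 1) 1 n = 0 := by
    intro n
    unfold E
    rw [sum_range_succ']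
    simp [c, PowerSeries.coeff_one]
  refine ⟨zero_le_one, fun n => (h1 n).ge, fun _ _ _ => le_rfl, fun _ => le_rfl, 1, zero_le_one,
    fun N => ⟨?_, ?_⟩⟩
  · rw [sum_range_succ']
    simp [c, PowerSeries.coeff_one]
  · rw [h1]; norm_num

lemma Good.mul {b : ℕ} (hb : 2 ≤ b) {F G : PowerSeries ℕ} {v w : ℝ} {q p : ℕ → ℝ}
    (hF : Good b F v q) (hG : Good b G w p) : Good b (F * G) (v * w) (fun n => q n * p n) := by
  obtain ⟨B, hB, hB'⟩ := hF.bound
  obtain ⟨C, hC, hC'⟩ := hG.bound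
  refine ⟨mul_nonneg hF.v_nonneg hG.v_nonneg, fun n => ?_, fun m n h => ?_, fun n => ?_,
    B * w + B * C, by have := hG.v_nonneg; positivity, fun N => ⟨?_, ?_⟩⟩
  · rw [E_mul hb]
    exact add_nonneg (mul_nonneg (hF.E_nonneg n) hG.v_nonneg)
      (sum_nonneg fun i _ => mul_nonneg (by positivity) (hG.E_nonneg _))
  · exact mul_le_mul (hF.mono h) (hG.mono h) (by linarith [hG.one_le m])
      (by linarith [hF.one_le n])
  · exact one_le_mul_of_one_le_of_one_le (hF.one_le n) (hG.one_le n)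
  · have h0 : ∑ k ∈ range (N + 1), c (F * G) k =
        ∑ j ∈ range (N + 1), ∑ l ∈ range (N + 1 - j), c F j * c G l := by
      rw [← Finset.sum_range_diag_flip (N + 1) (fun j l => c F j * c G l)]
      refine sum_congr rfl fun k _ => ?_
      rw [c_mul, conv, Finset.Nat.sum_antidiagonal_eq_sum_range_succ (fun j l => c F j * c G l)]
    have h1 : ∑ k ∈ range (N + 1), c (F * G) k ≤
        (∑ j ∈ range (N + 1), c F j) * ∑ l ∈ range (N + 1), c G l := by
      rw [h0, sum_mul]
      refine sum_le_sum fun j _ => ?_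
      rw [← mul_sum]
      exact Nat.mul_le_mul_left _ (sum_le_sum_of_subset (range_mono (by omega)))
    have h2 : ∑ k ∈ range (N + 1), (c (F * G) k : ℝ) ≤
        (∑ j ∈ range (N + 1), (c F j : ℝ)) * ∑ l ∈ range (N + 1), (c G l : ℝ) := by
      exact_mod_cast h1
    refine h2.trans ?_
    have h3 := (hB' N).1
    have h4 := (hC' N).1
    have h5 := hF.one_le N
    have h6 := hG.one_le N
    have h7 := hG.v_nonneg
    calc (∑ j ∈ range (N + 1), (c F j : ℝ)) * ∑ l ∈ range (N + 1), (c G l : ℝ)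
        ≤ (B * q N) * (C * p N) :=
          mul_le_mul h3 h4 (sum_nonneg fun _ _ => by positivity) (by positivity)
      _ = (B * C) * (q N * p N) := by ring
      _ ≤ (B * w + B * C) * (q N * p N) := by
          refine mul_le_mul_of_nonneg_right ?_ (by positivity)
          have : 0 ≤ B * w := by positivity
          linarith
  · rw [E_mul hb]
    have h5 := hF.one_le N
    have h6 := hG.one_le N
    have h7 := hG.v_nonneg
    have h8 : E b (c F) v N * w ≤ B * w * (q N * p N) := by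
      calc E b (c F) v N * w ≤ (B * q N) * w := mul_le_mul_of_nonneg_right (hB' N).2 h7
        _ = B * w * (q N * 1) := by ring
        _ ≤ B * w * (q N * p N) := by
            refine mul_le_mul_of_nonneg_left ?_ (by positivity)
            exact mul_le_mul_of_nonneg_left h6 (by linarith)
    have h9 : ∑ i ∈ range (N + 1), (c F i : ℝ) * E b (c G) w (N - i) ≤
        B * C * (q N * p N) := by
      calc ∑ i ∈ range (N + 1), (c F i : ℝ) * E b (c G) w (N - i)
          ≤ ∑ i ∈ range (N + 1), (c F i : ℝ) * (C * p N) := by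
            refine sum_le_sum fun i _ => mul_le_mul_of_nonneg_left ?_ (by positivity)
            refine ((hC' _).2).trans (mul_le_mul_of_nonneg_left (hG.mono (by omega)) hC)
        _ = (∑ i ∈ range (N + 1), (c F i : ℝ)) * (C * p N) := by rw [sum_mul]
        _ ≤ (B * q N) * (C * p N) :=
            mul_le_mul_of_nonneg_right (hB' N).1 (by positivity)
        _ = _ := by ring
    calc _ ≤ B * w * (q N * p N) + B * C * (q N * p N) := add_le_add h8 h9
      _ = _ := by ring

lemma Good.pow {b : ℕ} (hb : 2 ≤ b) {F : PowerSeries ℕ} {v : ℝ} {q : ℕ → ℝ}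
    (hF : Good b F v q) (i : ℕ) : Good b (F ^ i) (v ^ i) (fun n => q n ^ i) := by
  induction i with
  | zero => simpa using Good.one b
  | succ i ih => simpa only [pow_succ] using ih.mul hb hF

lemma Good.prod {b : ℕ} (hb : 2 ≤ b) {ι : Type*} (s : Finset ι) (F : ι → PowerSeries ℕ)
    (v : ι → ℝ) (q : ι → ℕ → ℝ) (h : ∀ i ∈ s, Good b (F i) (v i) (q i)) :
    Good b (∏ i ∈ s, F i) (∏ i ∈ s, v i) (fun n => ∏ i ∈ s, q i n) := by
  classical
  induction s using Finset.induction_on with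
  | empty => simpa using Good.one b
  | insert a s ha ih =>
      simp only [prod_insert ha]
      exact (h a (mem_insert_self a s)).mul hb (ih fun i hi => h i (mem_insert_of_mem hi))

lemma E_mul_pos {b : ℕ} (hb : 2 ≤ b) {F G : PowerSeries ℕ} {v w : ℝ} (hw : 0 < w)
    (hF : ∀ n, 0 < E b (c F) v n) (hG : ∀ n, 0 ≤ E b (c G) w n) (n : ℕ) :
    0 < E b (c (F * G)) (v * w) n := by
  rw [E_mul hb]
  have h1 := hF n
  have h2 : 0 ≤ ∑ i ∈ range (n + 1), (c F i : ℝ) * E b (c G) w (n - i) :=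
    sum_nonneg fun i _ => mul_nonneg (by positivity) (hG _)
  have h3 : 0 < E b (c F) v n * w := mul_pos h1 hw
  linarith

/-- the digits as a power series -/
noncomputable def ser (b : ℕ) (x : ℝ) : PowerSeries ℕ := PowerSeries.mk (digit b x)

lemma c_ser (b : ℕ) (x : ℝ) : c (ser b x) = digit b x := by
  funext k; simp [c, ser]

lemma good_ser {b : ℕ} (hb : 2 ≤ b) {x : ℝ} (hx : 0 < x) :
    Good b (ser b x) x (fun N => (cnt (digit b x) N : ℝ) + 1) := by
  refine ⟨hx.le, fun n => ?_, fun m n h => ?_, fun n => ?_,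
    ((⌊x⌋₊ + b : ℕ) : ℝ) + 1, by positivity, fun N => ⟨?_, ?_⟩⟩
  · rw [c_ser, E_digit hb]
    have : (⌊x * b ^ n⌋₊ : ℝ) ≤ x * b ^ n := Nat.floor_le (by positivity)
    linarith
  · have : (cnt (digit b x) m : ℝ) ≤ cnt (digit b x) n := by exact_mod_cast cnt_mono h
    change (cnt (digit b x) m : ℝ) + 1 ≤ (cnt (digit b x) n : ℝ) + 1
    linarith
  · have : (0 : ℝ) ≤ cnt (digit b x) n := by positivity
    change (1 : ℝ) ≤ (cnt (digit b x) n : ℝ) + 1
    linarith
  · rw [c_ser]
    have h1 := sum_le_cnt (digit_le hb x) N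
    have h2 : ∑ k ∈ range (N + 1), (digit b x k : ℝ) ≤
        ((⌊x⌋₊ + b : ℕ) : ℝ) * cnt (digit b x) N := by exact_mod_cast h1
    refine h2.trans ?_
    have h3 : (0 : ℝ) ≤ cnt (digit b x) N := by positivity
    have h4 : (0 : ℝ) ≤ ((⌊x⌋₊ + b : ℕ) : ℝ) := by positivity
    nlinarith
  · rw [c_ser]
    refine (E_digit_le hb N).trans ?_
    have h3 : (0 : ℝ) ≤ cnt (digit b x) N := by positivity
    have h4 : (0 : ℝ) ≤ ((⌊x⌋₊ + b : ℕ) : ℝ) := by positivity
    nlinarith

lemma mem_sums_of_pow {a : ℕ → ℕ} (i : ℕ) : ∀ k, c ((PowerSeries.mk a) ^ i) k ≠ 0 →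
    k ∈ sums i {n | a n ≠ 0} := by
  have h : c ((PowerSeries.mk a) ^ i) = pw a i := by
    induction i with
    | zero =>
        funext k
        simp [c, pw, PowerSeries.coeff_one]
    | succ i ih =>
        rw [pow_succ', c_mul, ih]
        have : c (PowerSeries.mk a) = a := by funext k; simp [c]
        rw [this]
        rfl
  intro k hk
  rw [h] at hk
  exact mem_sums_of_pw i k hk

/-- **The main inequality for several numbers.** -/
theorem main_several {b : ℕ} (hb : 2 ≤ b) {s : ℕ} {x : Fin s → ℝ} (hx : ∀ i, 0 < x i)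
    (P : MvPolynomial (Fin s) ℕ) (D : ℕ) (heq : MvPolynomial.aeval x P = (D : ℝ))
    (hm : ∃ d ∈ P.support, ∃ i, d i ≠ 0 ∧ Irrational (x i)) {ε : ℝ} (hε : 0 < ε) (hε1 : ε < 1) :
    ∃ C : ℝ, ∀ N : ℕ, 1 ≤ N → ∀ S : Finset ℕ,
      (∀ n, 1 ≤ n → n ≤ N → (∃ d ∈ P.support, ∃ κ : Fin s → ℕ,
        (∀ i, κ i ∈ sums (d i) (pos b (x i))) ∧ ∑ i, κ i = n) → n ∈ S) →
      0 < Real.logb b (MvPolynomial.aeval (fun i => (cnt (digit b (x i)) N : ℝ) + 1) P / N) + C ∧
      (1 - ε) * N ≤ ((#S : ℝ) + 1) *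
        (Real.logb b (MvPolynomial.aeval (fun i => (cnt (digit b (x i)) N : ℝ) + 1) P / N) + C) := by
  classical
  set G : (Fin s →₀ ℕ) → PowerSeries ℕ := fun d => ∏ i, (ser b (x i)) ^ d i with hG
  set V : (Fin s →₀ ℕ) → ℝ := fun d => ∏ i, x i ^ d i with hV
  set Q : (Fin s →₀ ℕ) → ℕ → ℝ :=
    fun d N => ∏ i, ((cnt (digit b (x i)) N : ℝ) + 1) ^ d i with hQ
  have hgood : ∀ d, Good b (G d) (V d) (Q d) := fun d =>
    Good.prod hb univ (fun i => (ser b (x i)) ^ d i) (fun i => x i ^ d i)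
      (fun i N => ((cnt (digit b (x i)) N : ℝ) + 1) ^ d i)
      (fun i _ => (good_ser hb (hx i)).pow hb (d i))
  choose B hB hB' using fun d => (hgood d).bound
  set r : ℕ → ℕ := fun k => ∑ d ∈ P.support, P.coeff d * c (G d) k with hr
  set q : ℕ → ℝ := fun N =>
    MvPolynomial.aeval (fun i => (cnt (digit b (x i)) N : ℝ) + 1) P with hq
  have hqe : ∀ N, q N = ∑ d ∈ P.support, ((P.coeff d : ℕ) : ℝ) * Q d N := by
    intro N
    rw [hq, hQ]
    simp only [MvPolynomial.aeval_def, MvPolynomial.eval₂_eq']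
    simp
  have hDe : (D : ℝ) = ∑ d ∈ P.support, ((P.coeff d : ℕ) : ℝ) * V d := by
    rw [← heq, hV]
    simp only [MvPolynomial.aeval_def, MvPolynomial.eval₂_eq']
    simp
  have hEr : ∀ n, E b r (D : ℝ) n =
      ∑ d ∈ P.support, ((P.coeff d : ℕ) : ℝ) * E b (c (G d)) (V d) n := by
    intro n
    have h1 : ∑ k ∈ range (n + 1), (r k : ℝ) / b ^ k =
        ∑ d ∈ P.support, ((P.coeff d : ℕ) : ℝ) * ∑ k ∈ range (n + 1), (c (G d) k : ℝ) / b ^ k := by
      rw [hr]
      push_cast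
      simp_rw [sum_div, mul_sum]
      rw [sum_comm]
      refine sum_congr rfl fun i _ => sum_congr rfl fun k _ => by ring
    unfold E
    rw [h1, hDe, mul_sub, mul_sum, mul_sum, ← sum_sub_distrib]
    refine sum_congr rfl fun i _ => by ring
  obtain ⟨d₀, hd₀, i₀, hi₀, hirr⟩ := hm
  have hone : ∀ n, 1 ≤ E b r (D : ℝ) n := by
    intro n
    obtain ⟨z, hz⟩ := E_int hb r D n
    have hpos : 0 < E b r (D : ℝ) n := by
      rw [hEr]
      refine sum_pos' (fun d _ => mul_nonneg (by positivity) ((hgood d).E_nonneg n))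
        ⟨d₀, hd₀, ?_⟩
      have h1 : (0 : ℝ) < ((P.coeff d₀ : ℕ) : ℝ) := by
        exact_mod_cast Nat.pos_of_ne_zero (MvPolynomial.mem_support_iff.1 hd₀)
      refine mul_pos h1 ?_
      -- split off the irrational factor
      obtain ⟨j, hj⟩ := Nat.exists_eq_succ_of_ne_zero hi₀
      have h2 : G d₀ = ser b (x i₀) *
          ((ser b (x i₀)) ^ j * ∏ i ∈ univ.erase i₀, (ser b (x i)) ^ d₀ i) := by
        rw [hG]
        dsimp only
        rw [← mul_prod_erase univ _ (mem_univ i₀), hj, pow_succ]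
        ring
      have h3 : V d₀ = x i₀ * ((x i₀) ^ j * ∏ i ∈ univ.erase i₀, (x i) ^ d₀ i) := by
        rw [hV]
        dsimp only
        rw [← mul_prod_erase univ _ (mem_univ i₀), hj, pow_succ]
        ring
      rw [h2, h3]
      refine E_mul_pos hb ?_ (fun n => ?_) (fun n => ?_) n
      · have := hx i₀
        have : 0 < ∏ i ∈ univ.erase i₀, (x i) ^ d₀ i := prod_pos fun i _ => pow_pos (hx i) _
        positivity
      · rw [c_ser]; exact E_digit_pos hb (hx i₀) hirr n
      · exact (((good_ser hb (hx i₀)).pow hb j).mul hb (Good.prod hb (univ.erase i₀)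
          (fun i => (ser b (x i)) ^ d₀ i) (fun i => x i ^ d₀ i)
          (fun i N => ((cnt (digit b (x i)) N : ℝ) + 1) ^ d₀ i)
          (fun i _ => (good_ser hb (hx i)).pow hb (d₀ i)))).E_nonneg n
    rw [hz] at hpos ⊢
    have : (0 : ℤ) < z := by exact_mod_cast hpos
    exact_mod_cast this
  set C₀ : ℝ := ∑ d ∈ P.support, B d with hC₀
  have hC₀0 : 0 ≤ C₀ := sum_nonneg fun d _ => hB d
  have hBC : ∀ d ∈ P.support, B d ≤ C₀ := fun d hd =>
    single_le_sum (f := B) (fun d _ => hB d) hd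
  have hQ1 : ∀ d N, 1 ≤ Q d N := fun d N => (hgood d).one_le N
  have hq1 : ∀ N, 1 ≤ q N := by
    intro N
    rw [hqe]
    have h1 : (1 : ℝ) ≤ ((P.coeff d₀ : ℕ) : ℝ) := by
      exact_mod_cast Nat.one_le_iff_ne_zero.2 (MvPolynomial.mem_support_iff.1 hd₀)
    calc (1 : ℝ) ≤ ((P.coeff d₀ : ℕ) : ℝ) * Q d₀ N := one_le_mul_of_one_le_of_one_le h1 (hQ1 d₀ N)
      _ ≤ _ := single_le_sum (f := fun d => ((P.coeff d : ℕ) : ℝ) * Q d N)
          (fun d _ => mul_nonneg (by positivity) (by linarith [hQ1 d N])) hd₀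
  have hbs : ∀ N, ∑ n ∈ range (N + 1), (r n : ℝ) ≤ C₀ * q N := by
    intro N
    rw [hqe, mul_sum]
    have h1 : ∑ n ∈ range (N + 1), (r n : ℝ) =
        ∑ d ∈ P.support, ((P.coeff d : ℕ) : ℝ) * ∑ n ∈ range (N + 1), (c (G d) n : ℝ) := by
      rw [hr]
      push_cast
      rw [sum_comm]
      simp_rw [mul_sum]
    rw [h1]
    refine sum_le_sum fun d hd => ?_
    calc ((P.coeff d : ℕ) : ℝ) * ∑ n ∈ range (N + 1), (c (G d) n : ℝ)
        ≤ ((P.coeff d : ℕ) : ℝ) * (B d * Q d N) :=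
          mul_le_mul_of_nonneg_left (hB' d N).1 (by positivity)
      _ ≤ ((P.coeff d : ℕ) : ℝ) * (C₀ * Q d N) := by
          refine mul_le_mul_of_nonneg_left ?_ (by positivity)
          exact mul_le_mul_of_nonneg_right (hBC d hd) (by linarith [hQ1 d N])
      _ = _ := by ring
  have hbE : ∀ N, E b r (D : ℝ) N ≤ C₀ * q N := by
    intro N
    rw [hqe, mul_sum, hEr]
    refine sum_le_sum fun d hd => ?_
    calc ((P.coeff d : ℕ) : ℝ) * E b (c (G d)) (V d) N
        ≤ ((P.coeff d : ℕ) : ℝ) * (B d * Q d N) :=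
          mul_le_mul_of_nonneg_left (hB' d N).2 (by positivity)
      _ ≤ ((P.coeff d : ℕ) : ℝ) * (C₀ * Q d N) := by
          refine mul_le_mul_of_nonneg_left ?_ (by positivity)
          exact mul_le_mul_of_nonneg_right (hBC d hd) (by linarith [hQ1 d N])
      _ = _ := by ring
  obtain ⟨C, hC⟩ := finish hb hone hq1 hC₀0 hbs hbE hε hε1
  · refine ⟨C, fun N hN S hS => hC N hN S fun n hn => ?_⟩
    rw [supp, mem_filter, mem_Icc] at hn
    obtain ⟨⟨h1, h2⟩, h3⟩ := hn
    refine hS n h1 h2 ?_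
    have h4 : ∑ d ∈ P.support, P.coeff d * c (G d) n ≠ 0 := h3
    obtain ⟨d, hd, hd'⟩ := exists_ne_zero_of_sum_ne_zero h4
    have h5 : c (G d) n ≠ 0 := right_ne_zero_of_mul hd'
    have h6 : PowerSeries.coeff n (∏ i ∈ univ, (ser b (x i)) ^ d i) ≠ 0 := h5
    rw [PowerSeries.coeff_prod] at h6
    obtain ⟨l, hl, hl'⟩ := exists_ne_zero_of_sum_ne_zero h6
    rw [mem_finsuppAntidiag] at hl
    refine ⟨d, hd, fun i => l i, fun i => ?_, hl.1⟩
    have h7 : PowerSeries.coeff (l i) ((ser b (x i)) ^ d i) ≠ 0 :=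
      prod_ne_zero_iff.1 hl' i (mem_univ i)
    exact mem_sums_of_pow (d i) (l i) h7

end Pool.Agent.Q39.SS
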